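import Mathlib

/-!
# Log-concavity for Euler continuants (combinatorial core)

Sequences are functions `ℤ → ℤ`.  `dd f i = f i - f (i-1)`.  `Rel B U V` says that the
quotient `V / U` is nondecreasing on the indices `j` with `2 j ≤ B`, in the strong form
`U j * V i ≤ U i * V j` for all `i ≤ j`.
-/

namespace Pool.Agent.R899.TB

def dd (f : ℤ → ℤ) (i : ℤ) : ℤ := f i - f (i - 1)

def Rel (B : ℤ) (U V : ℤ → ℤ) : Prop :=
  ∀ i j : ℤ, i ≤ j → 2 * j ≤ B → U j * V i ≤ U i * V j

theorem Rel.trans {B : ℤ} {U V W : ℤ → ℤ} (hU : ∀ i, 2 * i ≤ B → 0 ≤ U i)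
    (hV : ∀ i, 2 * i ≤ B → 0 ≤ V i) (hW : ∀ i, 2 * i ≤ B → 0 ≤ W i)
    (h1 : Rel B U V) (h2 : Rel B V W) {c : ℤ} (hc : 2 * c ≤ B) (hcV : 0 < V c) :
    Rel B U W := by
  intro i j hij hj
  have hi : 2 * i ≤ B := by omega
  have hUi := hU i hi
  have hUj := hU j hj
  have hVi := hV i hi
  have hVj := hV j hj
  have hWi := hW i hi
  have hWj := hW j hj
  have a1 := h1 i j hij hj
  have a2 := h2 i j hij hj
  rcases hVj.lt_or_eq with pj | pj
  · rcases hVi.lt_or_eq with p | p
    · have hp : 0 < V i * V j := mul_pos p pj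
      have key : (V i * V j) * (U j * W i) ≤ (V i * V j) * (U i * W j) := by
        calc (V i * V j) * (U j * W i) = (U j * V i) * (V j * W i) := by ring
          _ ≤ (U i * V j) * (V i * W j) :=
              mul_le_mul a1 a2 (mul_nonneg hVj hWi) (mul_nonneg hUi hVj)
          _ = (V i * V j) * (U i * W j) := by ring
      exact le_of_mul_le_mul_left key hp
    · rw [← p] at a2
      have : W i = 0 := by nlinarith
      rw [this]; simp; exact mul_nonneg hUi hWj
  · -- V j = 0
    by_cases hcj : c ≤ j
    · have b1 := h1 c j hcj hj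
      rw [← pj] at b1
      have : U j = 0 := by nlinarith [hU c hc]
      rw [this]; simp; exact mul_nonneg hUi hWj
    · have hic : i ≤ c := by omega
      rcases hVi.lt_or_eq with p | p
      · rw [← pj] at a1
        have : U j = 0 := by nlinarith
        rw [this]; simp; exact mul_nonneg hUi hWj
      · have b2 := h2 i c hic hc
        rw [← p] at b2
        have : W i = 0 := by nlinarith
        rw [this]; simp; exact mul_nonneg hUi hWj

theorem Rel.shift {B : ℤ} {U V : ℤ → ℤ} (h : Rel B U V) {k : ℤ} (hk : 0 ≤ k) :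
    Rel B (fun i => U (i - k)) (fun i => V (i - k)) := by
  intro i j hij hj
  exact h (i - k) (j - k) (by omega) (by omega)

theorem Rel.zero {B : ℤ} {U V : ℤ → ℤ} (hV : ∀ i, 2 * i ≤ B → V i = 0) : Rel B U V := by
  intro i j hij hj
  rw [hV i (by omega), hV j hj]
  simp

theorem tele (C : ℤ → ℤ) (a : ℤ) (n : ℕ) :
    C a - C (a - n) = ∑ l ∈ Finset.range n, dd C (a - l) := by
  induction n with
  | zero => simp
  | succ n ih =>
    rw [Finset.sum_range_succ, ← ih, dd]
    push_cast
    have : a - (n : ℤ) - 1 = a - ((n : ℤ) + 1) := by ring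
    rw [this]
    ring

/-- The data created by a step which is not a `(1,1)` step.  `C = Δ_m - Δ_{m-1}`. -/
structure Created (m : ℤ) (C : ℤ → ℤ) : Prop where
  neg : ∀ i < 0, C i = 0
  pos : ∀ i, m < i → C i = 0
  Enn : ∀ i, 2 * i ≤ m + 1 → 0 ≤ dd C i
  Rnn : ∀ i, 2 * i ≤ m → 0 ≤ C (m - i) - C i
  Fnn : ∀ i, 2 * i ≤ m → dd C (m + 1 - i) ≤ 0
  RE : ∀ k, 0 ≤ k → Rel m (fun i => C (m - i) - C i) (fun i => dd C (i - k))
  EE : ∀ k, 0 ≤ k → Rel (m + 1) (dd C) (fun i => dd C (i - k))
  FR : Rel m (fun i => - dd C (m + 1 - i)) (fun i => C (m - (i - 1)) - C (i - 1))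
  FE : ∀ k, 1 ≤ k → Rel m (fun i => - dd C (m + 1 - i)) (fun i => dd C (i - k))

/-- the chain: `q n = α^{(m+n)}`. -/
def q (m : ℤ) (C : ℤ → ℤ) (n : ℤ) (i : ℤ) : ℤ := C (m - i) - C (i - n - 1)

namespace Created

variable {m : ℤ} {C : ℤ → ℤ}

theorem mono (h : Created m C) {a b : ℤ} (hab : a ≤ b) (hb : 2 * b ≤ m + 1) : C a ≤ C b := by
  obtain ⟨n, hn⟩ := Int.eq_ofNat_of_zero_le (sub_nonneg.mpr hab)
  have e : a = b - n := by omega
  have := tele C b n
  rw [← e] at this
  have h2 : 0 ≤ ∑ l ∈ Finset.range n, dd C (b - l) :=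
    Finset.sum_nonneg (fun l _ => h.Enn _ (by omega))
  linarith

theorem q_nonneg (h : Created m C) {n i : ℤ} (hn : -1 ≤ n) (hi : 2 * i ≤ m + n + 1) :
    0 ≤ q m C n i := by
  unfold q
  by_cases h1 : 2 * i ≤ m
  · have a := h.Rnn i h1
    have b := h.mono (a := i - n - 1) (b := i) (by omega) (by omega)
    linarith
  · have b := h.mono (a := i - n - 1) (b := m - i) (by omega) (by omega)
    linarith

theorem q_neg (h : Created m C) {n i : ℤ} (hn : -1 ≤ n) (hi : i < 0) : q m C n i = 0 := by
  unfold q
  rw [h.pos _ (by omega), h.neg _ (by omega)]; simp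

theorem q_antisymm (n i : ℤ) : q m C n (m + n + 1 - i) = - q m C n i := by
  unfold q
  have e1 : m - (m + n + 1 - i) = i - n - 1 := by ring
  have e2 : m + n + 1 - i - n - 1 = m - i := by ring
  rw [e1, e2]; ring

/-- `q (n-1) ≤ x^n E`. -/
theorem G1 (h : Created m C) (n : ℕ) :
    Rel (m + n) (q m C (n - 1)) (fun i => dd C (i - n)) := by
  intro i j hij hj
  simp only
  have qi : ∀ i, q m C (n - 1) i = C (m - i) - C (i - n) := by
    intro i; unfold q; congr 2; ring
  rw [qi, qi]
  by_cases hh : 2 * j ≤ m
  · -- head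
    have t : ∀ i, C (m - i) - C (i - n) =
        (C (m - i) - C i) + ∑ l ∈ Finset.range n, dd C (i - l) := by
      intro i; rw [← tele]; ring
    rw [t i, t j, add_mul, add_mul, Finset.sum_mul, Finset.sum_mul]
    apply add_le_add
    · exact h.RE n (by omega) i j hij hh
    · apply Finset.sum_le_sum
      intro l hl
      have hl' : l < n := Finset.mem_range.mp hl
      have := h.EE (n - l) (by omega) (i - l) (j - l) (by omega) (by omega)
      simp only at this
      have e1 : i - (l : ℤ) - (n - l) = i - n := by ring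
      have e2 : j - (l : ℤ) - (n - l) = j - n := by ring
      rw [e1, e2] at this
      exact this
  · -- tail
    obtain ⟨L, hL⟩ := Int.eq_ofNat_of_zero_le (show 0 ≤ m + n - 2 * j by omega)
    have e1 : j - n = (m - j) - L := by omega
    have t := tele C (m - j) L
    rw [← e1] at t
    rw [t]
    have t2 := tele C (m - j - (j - i)) L
    have e2 : m - j - (j - i) - (L : ℤ) = i - n := by omega
    rw [e2] at t2
    have hm : C (m - j - (j - i)) ≤ C (m - i) := by
      by_cases h1 : 2 * i ≤ m
      · have a := h.Rnn i h1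
        have b := h.mono (a := m - j - (j - i)) (b := i) (by omega) (by omega)
        linarith
      · exact h.mono (by omega) (by omega)
    have hE : 0 ≤ dd C (j - n) := h.Enn _ (by omega)
    calc (∑ l ∈ Finset.range L, dd C (m - j - l)) * dd C (i - n)
        = ∑ l ∈ Finset.range L, dd C (m - j - l) * dd C (i - n) := by rw [Finset.sum_mul]
      _ ≤ ∑ l ∈ Finset.range L, dd C (m - j - (j - i) - l) * dd C (j - n) := by
          apply Finset.sum_le_sum
          intro l hl
          have hl' : l < L := Finset.mem_range.mp hl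
          have := h.EE ((L : ℤ) - l) (by omega) (m - j - (j - i) - l) (m - j - l) (by omega)
            (by omega)
          simp only at this
          have e3 : m - j - (j - i) - (l : ℤ) - ((L : ℤ) - l) = i - n := by omega
          have e4 : m - j - (l : ℤ) - ((L : ℤ) - l) = j - n := by omega
          rw [e3, e4] at this
          exact this
      _ = (C (m - j - (j - i)) - C (i - n)) * dd C (j - n) := by
          rw [← Finset.sum_mul, t2]
      _ ≤ (C (m - i) - C (i - n)) * dd C (j - n) :=
          mul_le_mul_of_nonneg_right (by linarith) hE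

/-- `q n ≤ x q (n-1)`. -/
theorem G2 (h : Created m C) (n : ℕ) :
    Rel (m + n) (q m C n) (fun i => q m C (n - 1) (i - 1)) := by
  intro i j hij hj
  simp only
  have qe : ∀ i, q m C (n - 1) (i - 1) = q m C n i + dd C (m + 1 - i) := by
    intro i; unfold q dd
    have e1 : m - (i - 1) = m + 1 - i := by ring
    have e2 : i - 1 - ((n : ℤ) - 1) - 1 = i - n - 1 := by ring
    have e3 : m + 1 - i - 1 = m - i := by ring
    rw [e1, e2, e3]; ring
  rw [qe, qe]
  suffices H : q m C n j * dd C (m + 1 - i) ≤ q m C n i * dd C (m + 1 - j) by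
    have e := mul_comm (q m C n j) (q m C n i)
    rw [mul_add, mul_add]; linarith
  by_cases hh : 2 * j ≤ m
  · -- head
    suffices H : q m C (n - 1) (i - 1) * (- dd C (m + 1 - j)) ≤
        q m C (n - 1) (j - 1) * (- dd C (m + 1 - i)) by
      rw [qe, qe] at H
      nlinarith
    have t : ∀ i, q m C (n - 1) (i - 1) =
        (C (m - (i - 1)) - C (i - 1)) + ∑ l ∈ Finset.range n, dd C (i - 1 - l) := by
      intro i; rw [← tele]; unfold q
      have : i - 1 - ((n : ℤ) - 1) - 1 = i - 1 - n := by ring
      rw [this]; ring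
    rw [t i, t j, add_mul, add_mul, Finset.sum_mul, Finset.sum_mul]
    apply add_le_add
    · have := h.FR i j hij hh
      simp only at this
      linarith [mul_comm (C (m - (i - 1)) - C (i - 1)) (- dd C (m + 1 - j)),
        mul_comm (C (m - (j - 1)) - C (j - 1)) (- dd C (m + 1 - i))]
    · apply Finset.sum_le_sum
      intro l hl
      have := h.FE (l + 1) (by omega) i j hij hh
      simp only at this
      have e1 : i - ((l : ℤ) + 1) = i - 1 - l := by ring
      have e2 : j - ((l : ℤ) + 1) = j - 1 - l := by ring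
      rw [e1, e2] at this
      linarith [mul_comm (dd C (i - 1 - l)) (- dd C (m + 1 - j)),
        mul_comm (dd C (j - 1 - l)) (- dd C (m + 1 - i))]
  · by_cases hi : 2 * i ≤ m
    · have a := h.Fnn i hi
      have b := h.Enn (m + 1 - j) (by omega)
      have c := h.q_nonneg (n := n) (i := j) (by omega) (by omega)
      have d := h.q_nonneg (n := n) (i := i) (by omega) (by omega)
      have := mul_nonneg d b
      have := mul_nonneg c (neg_nonneg.mpr a)
      linarith
    · -- tail
      obtain ⟨L, hL⟩ := Int.eq_ofNat_of_zero_le (show 0 ≤ m + n + 1 - 2 * j by omega)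
      have t := tele C (m - j) L
      have e1 : m - j - (L : ℤ) = j - n - 1 := by omega
      rw [e1] at t
      have t2 := tele C (m - i) L
      have hE : 0 ≤ dd C (m + 1 - j) := h.Enn _ (by omega)
      have hm : C (i - n - 1) ≤ C (m - i - L) := h.mono (by omega) (by omega)
      calc q m C n j * dd C (m + 1 - i)
          = ∑ l ∈ Finset.range L, dd C (m - j - l) * dd C (m + 1 - i) := by
            rw [← Finset.sum_mul, ← t]; rfl
        _ ≤ ∑ l ∈ Finset.range L, dd C (m - i - l) * dd C (m + 1 - j) := by
            apply Finset.sum_le_sum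
            intro l hl
            have := h.EE ((l : ℤ) + 1) (by omega) (m + 1 - j) (m + 1 - i) (by omega) (by omega)
            simp only at this
            have e3 : m + 1 - j - ((l : ℤ) + 1) = m - j - l := by ring
            have e4 : m + 1 - i - ((l : ℤ) + 1) = m - i - l := by ring
            rw [e3, e4] at this
            linarith [mul_comm (dd C (m - j - l)) (dd C (m + 1 - i)),
              mul_comm (dd C (m - i - l)) (dd C (m + 1 - j))]
        _ = (C (m - i) - C (m - i - L)) * dd C (m + 1 - j) := by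
            rw [← Finset.sum_mul, t2]
        _ ≤ q m C n i * dd C (m + 1 - j) := by
            apply mul_le_mul_of_nonneg_right _ hE
            unfold q; linarith

end Created

end Pool.Agent.R899.TB
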