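import Mathlib
import Pool.Agent.R899.TwoBridge.Core

namespace Pool.Agent.R899.TB

/-- the interlacing pair data: `Q ≤ Z ≤ x Q`. -/
structure Pair (B : ℤ) (Q Z : ℤ → ℤ) : Prop where
  Qneg : ∀ i < 0, Q i = 0
  Zneg : ∀ i < 0, Z i = 0
  Qnn : ∀ i, 2 * i ≤ B → 0 ≤ Q i
  Znn : ∀ i, 2 * i ≤ B → 0 ≤ Z i
  Q0 : 0 < Q 0
  Z01 : 0 < Z 0 ∨ 0 < Z 1
  QZ : Rel B Q Z
  ZQ : Rel B Z (fun i => Q (i - 1))

namespace Pair

variable {B : ℤ} {Q Z : ℤ → ℤ}

theorem QQ1 (h : Pair B Q Z) : Rel B Q (fun i => Q (i - 1)) := by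
  by_cases hB : 2 ≤ B
  · have hn : ∀ i, 2 * i ≤ B → 0 ≤ Q (i - 1) := fun i hi => h.Qnn _ (by omega)
    rcases h.Z01 with h0 | h1
    · exact Rel.trans h.Qnn h.Znn hn h.QZ h.ZQ (c := 0) (by omega) h0
    · exact Rel.trans h.Qnn h.Znn hn h.QZ h.ZQ (c := 1) (by omega) h1
  · exact Rel.zero (fun i hi => h.Qneg _ (by omega))

theorem QQ (h : Pair B Q Z) (k : ℕ) : Rel B Q (fun i => Q (i - k)) := by
  induction k with
  | zero =>
    intro i j _ _
    simp only [Nat.cast_zero, sub_zero]
    rw [mul_comm]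
  | succ k ih =>
    by_cases hB : 2 * (k : ℤ) ≤ B
    · have h1 := (h.QQ1).shift (k := k) (by omega)
      have e : (fun i : ℤ => Q (i - (k : ℤ) - 1)) = fun i => Q (i - ((k + 1 : ℕ) : ℤ)) := by
        funext i; congr 1; push_cast; ring
      rw [e] at h1
      refine Rel.trans h.Qnn (fun i hi => h.Qnn _ (by omega)) (fun i hi => h.Qnn _ (by omega))
        ih h1 (c := k) hB ?_
      simpa using h.Q0
    · exact Rel.zero (fun i hi => h.Qneg _ (by push_cast; omega))

theorem QZk (h : Pair B Q Z) (k : ℕ) : Rel B Q (fun i => Z (i - k)) := by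
  by_cases hB : 2 * (k : ℤ) ≤ B
  · have h1 := (h.QZ).shift (k := k) (by omega)
    refine Rel.trans h.Qnn (fun i hi => h.Qnn _ (by omega)) (fun i hi => h.Znn _ (by omega))
      (h.QQ k) h1 (c := k) hB ?_
    simpa using h.Q0
  · exact Rel.zero (fun i hi => h.Zneg _ (by omega))

theorem ZQk (h : Pair B Q Z) (k : ℕ) : Rel B Z (fun i => Q (i - (k + 1))) := by
  by_cases hB : 2 ≤ B
  · have h1 := (h.QQ k).shift (k := 1) (by omega)
    have e : (fun i : ℤ => Q (i - 1 - (k : ℤ))) = fun i => Q (i - ((k : ℤ) + 1)) := by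
      funext i; congr 1; ring
    rw [e] at h1
    refine Rel.trans h.Znn (fun i hi => h.Qnn _ (by omega)) (fun i hi => h.Qnn _ (by omega))
      h.ZQ h1 (c := 1) (by omega) ?_
    simpa using h.Q0
  · exact Rel.zero (fun i hi => h.Qneg _ (by omega))

theorem ZZ (h : Pair B Q Z) (k : ℕ) : Rel B Z (fun i => Z (i - k)) := by
  cases k with
  | zero =>
    intro i j _ _
    simp only [Nat.cast_zero, sub_zero]
    rw [mul_comm]
  | succ k =>
    by_cases hB : 2 * ((k : ℤ) + 1) ≤ B
    · have h1 := (h.QZ).shift (k := k + 1) (by omega)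
      have h2 := h.ZQk k
      have e : (fun i : ℤ => Z (i - ((k : ℤ) + 1))) = fun i => Z (i - ((k + 1 : ℕ) : ℤ)) := by
        funext i; congr 1
      rw [← e]
      refine Rel.trans h.Znn (fun i hi => h.Qnn _ (by omega)) (fun i hi => h.Znn _ (by omega))
        h2 h1 (c := k + 1) hB ?_
      simpa using h.Q0
    · exact Rel.zero (fun i hi => h.Zneg _ (by push_cast; omega))

end Pair

/-- A step `Δ' = z + (c+1) (1+x) Δ_M`; the new `C' = Δ' - Δ_M`. -/
theorem created_step (M : ℤ) (X z : ℤ → ℤ) (c : ℤ) (hc : 0 ≤ c)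
    (palX : ∀ i, X (M - i) = X i) (palz : ∀ i, z (M + 1 - i) = z i)
    (negX : ∀ i < 0, X i = 0) (negz : ∀ i < 0, z i = 0)
    (P : Pair (M + 1) (dd X) (dd z)) :
    Created (M + 1) (fun i => z i + c * X i + (c + 1) * X (i - 1)) := by
  set C' : ℤ → ℤ := fun i => z i + c * X i + (c + 1) * X (i - 1) with hC'
  have hE : ∀ i, dd C' i = dd z i + c * dd X i + (c + 1) * dd X (i - 1) := by
    intro i; simp only [hC', dd]; ring
  have hR : ∀ i, C' (M + 1 - i) - C' i = dd X i := by
    intro i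
    simp only [hC', dd]
    have e1 : X (M + 1 - i) = X (i - 1) := by
      rw [← palX (i - 1)]; congr 1; ring
    have e2 : X (M + 1 - i - 1) = X i := by
      rw [← palX i]; congr 1; ring
    rw [palz, e1, e2]; ring
  have hF : ∀ i, - dd C' (M + 1 + 1 - i) = dd z i + (c + 1) * dd X i + c * dd X (i - 1) := by
    intro i
    simp only [hC', dd]
    have e1 : z (M + 1 + 1 - i) = z (i - 1) := by
      rw [← palz (i - 1)]; congr 1; ring
    have e2 : z (M + 1 + 1 - i - 1) = z i := by
      rw [← palz i]; congr 1; ring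
    have e3 : X (M + 1 + 1 - i) = X (i - 1 - 1) := by
      rw [← palX (i - 1 - 1)]; congr 1; ring
    have e4 : X (M + 1 + 1 - i - 1) = X (i - 1) := by
      rw [← palX (i - 1)]; congr 1; ring
    have e5 : X (M + 1 + 1 - i - 1 - 1) = X i := by
      rw [← palX i]; congr 1; ring
    rw [e1, e2, e3, e4, e5]; ring
  have hZ2 : ∀ i, 2 * i = M + 2 → dd z i = 0 := by
    intro i hi
    simp only [dd]
    have : z (i - 1) = z i := by rw [← palz i]; congr 1; omega
    rw [this]; ring
  have hX2 : ∀ i, 2 * i = M + 2 → dd X i = - dd X (i - 1) := by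
    intro i hi
    simp only [dd]
    have : X (i - 1 - 1) = X i := by rw [← palX i]; congr 1; omega
    rw [this]; ring
  have hE2 : ∀ i, 2 * i = M + 2 → dd C' i = dd X (i - 1) := by
    intro i hi
    rw [hE, hZ2 i hi, hX2 i hi]; ring
  have hEge : ∀ i, 2 * i ≤ M + 1 → dd X (i - 1) ≤ dd C' i := by
    intro i hi
    rw [hE]
    have h1 := P.Znn i hi
    have h2 := mul_nonneg hc (P.Qnn i hi)
    have h3 := mul_nonneg hc (P.Qnn (i - 1) (by omega))
    nlinarith
  have Enn : ∀ i, 2 * i ≤ M + 1 + 1 → 0 ≤ dd C' i := by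
    intro i hi
    by_cases h : 2 * i ≤ M + 1
    · exact le_trans (P.Qnn _ (by omega)) (hEge i h)
    · rw [hE2 i (by omega)]; exact P.Qnn _ (by omega)
  have RE : ∀ k : ℕ, Rel (M + 1) (dd X) (fun i => dd C' (i - k)) := by
    intro k i j hij hj
    simp only [hE]
    have a1 := P.QZk k i j hij hj
    have a2 := P.QQ k i j hij hj
    have a3 := P.QQ (k + 1) i j hij hj
    push_cast at a3
    have e1 : i - (k : ℤ) - 1 = i - (k + 1) := by ring
    have e2 : j - (k : ℤ) - 1 = j - (k + 1) := by ring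
    simp only at a1 a2 a3
    rw [e1, e2]
    have b2 := mul_le_mul_of_nonneg_left a2 hc
    have b3 := mul_le_mul_of_nonneg_left a3 (by linarith : 0 ≤ c + 1)
    linarith
  -- pieces with shift `k+1`
  have pieces : ∀ (k : ℕ) (i j : ℤ), i ≤ j → 2 * j ≤ M + 1 → ∀ u0 u1 u2 v0 v1 v2 : ℤ,
      0 ≤ u0 → 0 ≤ u1 → 0 ≤ u2 → 0 ≤ v0 → 0 ≤ v1 → 0 ≤ v2 →
      (u0 * dd z j + u1 * dd X j + u2 * dd X (j - 1)) *
        (v0 * dd z (i - (k + 1)) + v1 * dd X (i - (k + 1)) + v2 * dd X (i - (k + 2))) ≤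
      (u0 * dd z i + u1 * dd X i + u2 * dd X (i - 1)) *
        (v0 * dd z (j - (k + 1)) + v1 * dd X (j - (k + 1)) + v2 * dd X (j - (k + 2))) := by
    intro k i j hij hj u0 u1 u2 v0 v1 v2 hu0 hu1 hu2 hv0 hv1 hv2
    have c00 := P.ZZ (k + 1) i j hij hj
    have c01 := P.ZQk k i j hij hj
    have c02 := P.ZQk (k + 1) i j hij hj
    have c10 := P.QZk (k + 1) i j hij hj
    have c11 := P.QQ (k + 1) i j hij hj
    have c12 := P.QQ (k + 2) i j hij hj
    have c20 := P.QZk k (i - 1) (j - 1) (by omega) (by omega)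
    have c21 := P.QQ k (i - 1) (j - 1) (by omega) (by omega)
    have c22 := P.QQ (k + 1) (i - 1) (j - 1) (by omega) (by omega)
    simp only at c00 c01 c02 c10 c11 c12 c20 c21 c22
    push_cast at c00 c01 c02 c10 c11 c12 c20 c21 c22
    have f1 : i - ((k : ℤ) + 1 + 1) = i - (k + 2) := by ring
    have f2 : j - ((k : ℤ) + 1 + 1) = j - (k + 2) := by ring
    have f3 : i - 1 - (k : ℤ) = i - (k + 1) := by ring
    have f4 : j - 1 - (k : ℤ) = j - (k + 1) := by ring
    have f5 : i - 1 - ((k : ℤ) + 1) = i - (k + 2) := by ring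
    have f6 : j - 1 - ((k : ℤ) + 1) = j - (k + 2) := by ring
    rw [f1, f2] at c02
    rw [f3, f4] at c20 c21
    rw [f5, f6] at c22
    have d00 := mul_le_mul_of_nonneg_left c00 (mul_nonneg hu0 hv0)
    have d01 := mul_le_mul_of_nonneg_left c01 (mul_nonneg hu0 hv1)
    have d02 := mul_le_mul_of_nonneg_left c02 (mul_nonneg hu0 hv2)
    have d10 := mul_le_mul_of_nonneg_left c10 (mul_nonneg hu1 hv0)
    have d11 := mul_le_mul_of_nonneg_left c11 (mul_nonneg hu1 hv1)
    have d12 := mul_le_mul_of_nonneg_left c12 (mul_nonneg hu1 hv2)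
    have d20 := mul_le_mul_of_nonneg_left c20 (mul_nonneg hu2 hv0)
    have d21 := mul_le_mul_of_nonneg_left c21 (mul_nonneg hu2 hv1)
    have d22 := mul_le_mul_of_nonneg_left c22 (mul_nonneg hu2 hv2)
    linarith
  refine ⟨?_, ?_, Enn, ?_, ?_, ?_, ?_, ?_, ?_⟩
  · intro i hi
    simp only [hC']
    rw [negz i hi, negX i hi, negX (i - 1) (by omega)]; ring
  · intro i hi
    simp only [hC']
    rw [← palz i, ← palX i, ← palX (i - 1), negz _ (by omega), negX _ (by omega),
      negX _ (by omega)]; ring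
  · intro i hi
    rw [hR]; exact P.Qnn i hi
  · intro i hi
    have h1 := P.Znn i hi
    have h2 := mul_nonneg (by linarith : 0 ≤ c + 1) (P.Qnn i hi)
    have h3 := mul_nonneg hc (P.Qnn (i - 1) (by omega))
    have := hF i
    linarith
  · intro k hk
    obtain ⟨k, rfl⟩ := Int.eq_ofNat_of_zero_le hk
    have e : (fun i => C' (M + 1 - i) - C' i) = dd X := by funext i; exact hR i
    rw [e]
    exact RE k
  · intro k hk
    obtain ⟨k, rfl⟩ := Int.eq_ofNat_of_zero_le hk
    cases k with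
    | zero =>
      intro i j _ _
      simp only [Nat.cast_zero, sub_zero]
      rw [mul_comm]
    | succ k =>
      intro i j hij hj
      simp only
      push_cast
      by_cases h : 2 * j ≤ M + 1
      · have := pieces k i j hij h 1 c (c + 1) 1 c (c + 1) (by omega) hc (by omega) (by omega)
          hc (by omega)
        rw [hE, hE, hE, hE]
        have e1 : i - ((k : ℤ) + 1) - 1 = i - (k + 2) := by ring
        have e2 : j - ((k : ℤ) + 1) - 1 = j - (k + 2) := by ring
        rw [e1, e2]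
        linarith
      · have hj2 : 2 * j = M + 2 := by omega
        by_cases hi : i = j
        · rw [hi]
        · have hi1 : 2 * i ≤ M + 1 := by omega
          rw [hE2 j hj2]
          have a := RE k (i - 1) (j - 1) (by omega) (by omega)
          simp only at a
          have e1 : i - 1 - (k : ℤ) = i - (k + 1) := by ring
          have e2 : j - 1 - (k : ℤ) = j - (k + 1) := by ring
          rw [e1, e2] at a
          refine le_trans a ?_
          exact mul_le_mul_of_nonneg_right (hEge i hi1) (Enn _ (by omega))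
  · have e : (fun i => C' (M + 1 - (i - 1)) - C' (i - 1)) = fun i => dd X (i - 1) := by
      funext i; exact hR (i - 1)
    rw [e]
    intro i j hij hj
    simp only
    rw [hF, hF]
    have a := P.ZQ i j hij hj
    have b := P.QQ1 i j hij hj
    simp only at a b
    have b' := mul_le_mul_of_nonneg_left b (by linarith : 0 ≤ c + 1)
    have e3 := mul_comm (dd X (j - 1)) (dd X (i - 1))
    nlinarith
  · intro k hk
    obtain ⟨k, rfl⟩ : ∃ k' : ℕ, k = k' + 1 := by
      obtain ⟨a, ha⟩ := Int.eq_ofNat_of_zero_le (show 0 ≤ k - 1 by omega)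
      exact ⟨a, by omega⟩
    intro i j hij hj
    simp only
    rw [hF, hF]
    have := pieces k i j hij hj 1 (c + 1) c 1 c (c + 1) (by omega) (by omega) hc (by omega)
        hc (by omega)
    rw [hE, hE]
    have e1 : i - ((k : ℤ) + 1) - 1 = i - (k + 2) := by ring
    have e2 : j - ((k : ℤ) + 1) - 1 = j - (k + 2) := by ring
    rw [e1, e2]
    linarith

end Pool.Agent.R899.TB
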