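import Mathlib
import Pool.Agent.R899.TwoBridge.Step

namespace Pool.Agent.R899.TB

structure St (M : ℤ) (X Y : ℤ → ℤ) : Prop where
  hM : 0 ≤ M
  palX : ∀ i, X (M - i) = X i
  palY : ∀ i, Y (M - 1 - i) = Y i
  negX : ∀ i < 0, X i = 0
  negY : ∀ i < 0, Y i = 0
  X0 : 0 < X 0
  Y0 : 1 ≤ M → 0 < Y 0
  chain : ∃ (m : ℤ) (C : ℤ → ℤ) (n : ℕ), M = m + n ∧ Created m C ∧
    (∀ i, dd X i = q m C n i) ∧ (∀ i, dd Y i = q m C (n - 1) i)

/-- the `(1,1)` successor -/
def G (X Y : ℤ → ℤ) (i : ℤ) : ℤ := X i + X (i - 1) - Y (i - 1)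

theorem St.palG {M : ℤ} {X Y : ℤ → ℤ} (h : St M X Y) (i : ℤ) :
    G X Y (M + 1 - i) = G X Y i := by
  unfold G
  have e1 : X (M + 1 - i) = X (i - 1) := by
    rw [← h.palX (i - 1)]; congr 1; ring
  have e2 : X (M + 1 - i - 1) = X i := by
    rw [← h.palX i]; congr 1; ring
  have e3 : Y (M + 1 - i - 1) = Y (i - 1) := by
    rw [← h.palY (i - 1)]; congr 1; ring
  rw [e1, e2, e3]; ring

theorem q_succ (m : ℤ) (C : ℤ → ℤ) (n i : ℤ) :
    q m C (n + 1) i = q m C n i + dd C (i - (n + 1)) := by
  unfold q dd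
  have e1 : i - (n + 1) - 1 = i - (n + 1) - 1 := rfl
  have e2 : i - n - 1 = i - (n + 1) := by ring
  rw [e2]; ring

theorem q_rec (m : ℤ) (C : ℤ → ℤ) (n i : ℤ) :
    q m C n i + q m C n (i - 1) - q m C (n - 1) (i - 1) = q m C (n + 1) i := by
  unfold q
  have e1 : i - 1 - (n - 1) - 1 = i - n - 1 := by ring
  have e2 : i - 1 - n - 1 = i - (n + 1) - 1 := by ring
  rw [e1, e2]; ring

theorem St.ddG {_M : ℤ} {X Y : ℤ → ℤ} {m : ℤ} {C : ℤ → ℤ} {n : ℕ}
    (hX : ∀ i, dd X i = q m C n i) (hY : ∀ i, dd Y i = q m C (n - 1) i) (i : ℤ) :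
    dd (G X Y) i = q m C (n + 1) i := by
  rw [← q_rec, ← hX, ← hX, ← hY]
  unfold dd G
  ring

theorem St.pairG {M : ℤ} {X Y : ℤ → ℤ} (h : St M X Y) :
    Pair (M + 1) (dd X) (dd (G X Y)) := by
  obtain ⟨m, C, n, hm, hC, hX, hY⟩ := h.chain
  have hG := St.ddG (_M := M) hX hY
  refine ⟨?_, ?_, ?_, ?_, ?_, ?_, ?_, ?_⟩
  · intro i hi
    unfold dd; rw [h.negX i hi, h.negX _ (by omega)]; ring
  · intro i hi
    unfold dd G
    rw [h.negX i hi, h.negX _ (by omega : i - 1 < 0), h.negX _ (by omega : i - 1 - 1 < 0),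
      h.negY _ (by omega : i - 1 < 0), h.negY _ (by omega : i - 1 - 1 < 0)]
    ring
  · intro i hi
    rw [hX]; exact hC.q_nonneg (by omega) (by omega)
  · intro i hi
    rw [hG]; exact hC.q_nonneg (by omega) (by omega)
  · unfold dd
    rw [h.negX _ (by omega : (0 : ℤ) - 1 < 0)]; simpa using h.X0
  · left
    unfold dd G
    rw [h.negX _ (by omega : (0 : ℤ) - 1 < 0), h.negX _ (by omega : (0 : ℤ) - 1 - 1 < 0),
      h.negY _ (by omega : (0 : ℤ) - 1 < 0), h.negY _ (by omega : (0 : ℤ) - 1 - 1 < 0)]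
    simpa using h.X0
  · intro i j hij hj
    rw [hX, hX, hG, hG, q_succ, q_succ]
    have a := hC.G1 (n + 1) i j hij (by push_cast; omega)
    push_cast at a
    simp only [add_sub_cancel_right] at a
    have := mul_comm (q m C n j) (q m C n i)
    nlinarith
  · intro i j hij hj
    simp only
    rw [hX, hX, hG, hG]
    have a := hC.G2 (n + 1) i j hij (by push_cast; omega)
    push_cast at a
    simp only [add_sub_cancel_right] at a
    exact a

theorem St.pairY {M : ℤ} {X Y : ℤ → ℤ} (h : St M X Y) (hM1 : 1 ≤ M) :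
    Pair (M + 1) (dd X) (dd (fun i => Y (i - 1))) := by
  obtain ⟨m, C, n, hm, hC, hX, hY⟩ := h.chain
  have hZ : ∀ i, dd (fun i => Y (i - 1)) i = q m C (n - 1) (i - 1) := by
    intro i; rw [← hY]; rfl
  refine ⟨?_, ?_, ?_, ?_, ?_, ?_, ?_, ?_⟩
  · intro i hi
    unfold dd; rw [h.negX i hi, h.negX _ (by omega)]; ring
  · intro i hi
    unfold dd
    simp only
    rw [h.negY _ (by omega : i - 1 < 0), h.negY _ (by omega : i - 1 - 1 < 0)]
    ring
  · intro i hi
    rw [hX]; exact hC.q_nonneg (by omega) (by omega)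
  · intro i hi
    rw [hZ]; exact hC.q_nonneg (by omega) (by omega)
  · unfold dd
    rw [h.negX _ (by omega : (0 : ℤ) - 1 < 0)]; simpa using h.X0
  · right
    unfold dd
    simp only
    rw [h.negY _ (by omega : (1 : ℤ) - 1 - 1 < 0)]
    simpa using h.Y0 hM1
  · intro i j hij hj
    rw [hX, hX, hZ, hZ]
    by_cases hh : 2 * j ≤ m + n
    · exact hC.G2 n i j hij hh
    · have e : m + n + 1 - j = j := by omega
      have a := Created.q_antisymm (m := m) (C := C) n j
      rw [e] at a
      have a0 : q m C n j = 0 := by linarith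
      rw [a0, zero_mul]
      exact mul_nonneg (hC.q_nonneg (by omega) (by omega)) (hC.q_nonneg (by omega) (by omega))
  · intro i j hij hj
    simp only
    rw [hX, hX, hZ, hZ]
    have e := q_succ m C (n - 1)
    simp only [sub_add_cancel] at e
    rw [e, e]
    have a := hC.G1 n (i - 1) (j - 1) (by omega) (by omega)
    simp only at a
    have := mul_comm (q m C (n - 1) (j - 1)) (q m C (n - 1) (i - 1))
    nlinarith

theorem St.step11 {M : ℤ} {X Y : ℤ → ℤ} (h : St M X Y) : St (M + 1) (G X Y) X := by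
  obtain ⟨m, C, n, hm, hC, hX, hY⟩ := h.chain
  refine ⟨by have := h.hM; omega, h.palG, ?_, ?_, h.negX, ?_, fun _ => h.X0, ?_⟩
  · intro i
    rw [← h.palX i]; congr 1; ring
  · intro i hi
    unfold G
    rw [h.negX i hi, h.negX _ (by omega), h.negY _ (by omega)]; ring
  · unfold G
    rw [h.negX _ (by omega : (0 : ℤ) - 1 < 0), h.negY _ (by omega : (0 : ℤ) - 1 < 0)]
    simpa using h.X0
  · refine ⟨m, C, n + 1, by push_cast; omega, hC, ?_, ?_⟩
    · intro i
      rw [St.ddG (_M := M) hX hY]; push_cast; rfl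
    · intro i
      rw [hX]; push_cast; congr 1; ring

theorem St.stepZ {M : ℤ} {X Y : ℤ → ℤ} (h : St M X Y) (z : ℤ → ℤ) (c : ℤ) (hc : 0 ≤ c)
    (palz : ∀ i, z (M + 1 - i) = z i) (negz : ∀ i < 0, z i = 0) (z0 : 0 ≤ z 0)
    (P : Pair (M + 1) (dd X) (dd z)) :
    St (M + 1) (fun i => z i + (c + 1) * (X i + X (i - 1))) X := by
  have hCr := created_step M X z c hc h.palX palz h.negX negz P
  have e1 : ∀ i, X (M + 1 - i) = X (i - 1) := by
    intro i; rw [← h.palX (i - 1)]; congr 1; ring
  have e2 : ∀ i, X (M + 1 - i - 1) = X i := by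
    intro i; rw [← h.palX i]; congr 1; ring
  refine ⟨by have := h.hM; omega, ?_, ?_, ?_, h.negX, ?_, fun _ => h.X0, ?_⟩
  · intro i
    rw [e1, e2, palz]; ring
  · intro i
    rw [← h.palX i]; congr 1; ring
  · intro i hi
    rw [h.negX i hi, h.negX _ (by omega), negz i hi]; ring
  · rw [h.negX _ (by omega : (0 : ℤ) - 1 < 0)]
    have := mul_pos (by linarith : 0 < c + 1) h.X0
    linarith
  · refine ⟨M + 1, _, 0, by simp, hCr, ?_, ?_⟩
    · intro i
      unfold q dd
      simp only
      rw [e1, e2, palz]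
      have e3 : i - ((0 : ℕ) : ℤ) - 1 = i - 1 := by simp
      rw [e3]; ring
    · intro i
      unfold q dd
      simp only
      rw [e1, e2, palz]
      have e3 : i - (((0 : ℕ) : ℤ) - 1) - 1 = i := by simp
      rw [e3]; ring

theorem St.step {M : ℤ} {X Y : ℤ → ℤ} (h : St M X Y) (β ε : ℤ) (hβ : 1 ≤ β)
    (hε : ε = 1 ∨ (ε = -1 ∧ 1 ≤ M)) :
    St (M + 1) (fun i => β * (X i + X (i - 1)) - ε * Y (i - 1)) X := by
  rcases hε with rfl | ⟨rfl, hM1⟩
  · by_cases hb : β = 1
    · subst hb
      have := h.step11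
      have e : G X Y = fun i => 1 * (X i + X (i - 1)) - 1 * Y (i - 1) := by
        funext i; unfold G; ring
      rw [e] at this
      exact this
    · have := h.stepZ (G X Y) (β - 2) (by omega) h.palG ?_ ?_ h.pairG
      · have e : (fun i => G X Y i + (β - 2 + 1) * (X i + X (i - 1))) =
            fun i => β * (X i + X (i - 1)) - 1 * Y (i - 1) := by
          funext i; unfold G; ring
        rw [e] at this
        exact this
      · intro i hi
        unfold G
        rw [h.negX i hi, h.negX _ (by omega), h.negY _ (by omega)]; ring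
      · unfold G
        rw [h.negX _ (by omega : (0 : ℤ) - 1 < 0), h.negY _ (by omega : (0 : ℤ) - 1 < 0)]
        have := h.X0; linarith
  · have := h.stepZ (fun i => Y (i - 1)) (β - 1) (by omega) ?_ ?_ ?_ (h.pairY hM1)
    · have e : (fun i => (fun i => Y (i - 1)) i + (β - 1 + 1) * (X i + X (i - 1))) =
          fun i => β * (X i + X (i - 1)) - (-1) * Y (i - 1) := by
        funext i; simp only; ring
      rw [e] at this
      exact this
    · intro i
      rw [← h.palY (i - 1)]; congr 1; ring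
    · intro i hi
      exact h.negY _ (by omega)
    · rw [h.negY _ (by omega)]

theorem St.init : St 0 (fun i => if i = 0 then 1 else 0) (fun _ => 0) := by
  refine ⟨le_refl _, ?_, fun _ => rfl, ?_, fun _ _ => rfl, by simp, by omega, ?_⟩
  · intro i; by_cases h : i = 0 <;> simp [h]
  · intro i hi
    have : i ≠ 0 := by omega
    simp [this]
  · refine ⟨0, fun i => if i = 0 then 1 else 0, 0, by simp, ?_, ?_, ?_⟩
    · refine ⟨?_, ?_, ?_, ?_, ?_, ?_, ?_, ?_, ?_⟩
      · intro i hi
        have : i ≠ 0 := by omega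
        simp [this]
      · intro i hi
        have : i ≠ 0 := by omega
        simp [this]
      · intro i hi
        unfold dd
        have h1 : i - 1 ≠ 0 := by omega
        simp only [h1, if_false]
        split_ifs <;> simp
      · intro i hi
        by_cases h : i = 0 <;> simp [h]
      · intro i hi
        unfold dd
        have h1 : 0 + 1 - i ≠ 0 := by omega
        simp only [h1, if_false]
        split_ifs <;> simp
      · intro k hk i j hij hj
        by_cases h1 : i = 0 <;> by_cases h2 : j = 0 <;> simp [h1, h2]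
      · intro k hk i j hij hj
        rcases hk.lt_or_eq with h | h
        · unfold dd
          have a1 : i - k ≠ 0 := by omega
          have a2 : i - k - 1 ≠ 0 := by omega
          have a3 : j - k ≠ 0 := by omega
          have a4 : j - k - 1 ≠ 0 := by omega
          simp [a1, a2, a3, a4]
        · rw [← h]; simp only [sub_zero]; rw [mul_comm]
      · intro i j hij hj
        have a1 : i - 1 ≠ 0 := by omega
        have a2 : j - 1 ≠ 0 := by omega
        have a3 : 0 - (i - 1) ≠ 0 := by omega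
        have a4 : 0 - (j - 1) ≠ 0 := by omega
        simp only [a1, a2, a3, a4, if_false]
        simp
      · intro k hk i j hij hj
        unfold dd
        have a1 : i - k ≠ 0 := by omega
        have a2 : i - k - 1 ≠ 0 := by omega
        have a3 : j - k ≠ 0 := by omega
        have a4 : j - k - 1 ≠ 0 := by omega
        simp [a1, a2, a3, a4]
    · intro i
      unfold q dd
      simp
    · intro i
      unfold q dd
      by_cases h : i = 0 <;> simp [h]

/-- Absolute values of the coefficients of the Euler continuant / Alexander polynomial. -/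
def K : ℕ → (ℕ → ℤ) → ℤ → ℤ
  | 0, _ => fun i => if i = 0 then 1 else 0
  | 1, b => fun i => |b 0| * ((if i = 0 then 1 else 0) + (if i - 1 = 0 then 1 else 0))
  | n + 2, b => fun i => |b 0| * (K (n + 1) (fun j => b (j + 1)) i
      + K (n + 1) (fun j => b (j + 1)) (i - 1))
      - ((b 0).sign * (b 1).sign) * K n (fun j => b (j + 2)) (i - 1)

def Kp : ℕ → (ℕ → ℤ) → ℤ → ℤ
  | 0, _ => fun _ => 0
  | n + 1, b => K n (fun j => b (j + 1))

theorem K_succ (n : ℕ) (b : ℕ → ℤ) : ∃ ε : ℤ, (b 0 ≠ 0 → (∀ i < n, b (i + 1) ≠ 0) →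
      (ε = 1 ∨ (ε = -1 ∧ 1 ≤ (n : ℤ)))) ∧
    K (n + 1) b = fun i => |b 0| * (K n (fun j => b (j + 1)) i
      + K n (fun j => b (j + 1)) (i - 1)) - ε * Kp n (fun j => b (j + 1)) (i - 1) := by
  cases n with
  | zero => exact ⟨1, fun _ _ => Or.inl rfl, by funext i; simp [K, Kp]⟩
  | succ n =>
    refine ⟨(b 0).sign * (b 1).sign, ?_, ?_⟩
    · intro h0 h1
      have h1' := h1 0 (by omega)
      simp only [zero_add] at h1'
      rcases lt_or_gt_of_ne h0 with a | a <;> rcases lt_or_gt_of_ne h1' with c | c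
      · left; rw [Int.sign_eq_neg_one_of_neg a, Int.sign_eq_neg_one_of_neg c]; norm_num
      · right; rw [Int.sign_eq_neg_one_of_neg a, Int.sign_eq_one_of_pos c]
        exact ⟨by norm_num, by push_cast; omega⟩
      · right; rw [Int.sign_eq_one_of_pos a, Int.sign_eq_neg_one_of_neg c]
        exact ⟨by norm_num, by push_cast; omega⟩
      · left; rw [Int.sign_eq_one_of_pos a, Int.sign_eq_one_of_pos c]; norm_num
    · rfl

theorem St_K (n : ℕ) : ∀ b : ℕ → ℤ, (∀ i < n, b i ≠ 0) → St n (K n b) (Kp n b) := by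
  induction n with
  | zero =>
    intro b _
    exact St.init
  | succ n ih =>
    intro b hb
    have h := ih (fun j => b (j + 1)) (fun i hi => hb (i + 1) (by omega))
    obtain ⟨ε, hε, hK⟩ := K_succ n b
    rw [hK]
    have := h.step |b 0| ε ?_ (hε (hb 0 (by omega)) (fun i hi => hb (i + 1) (by omega)))
    · push_cast
      exact this
    · have h0 := hb 0 (by omega)
      exact Int.one_le_abs h0

end Pool.Agent.R899.TB
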