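import Mathlib
import Pool.Agent.R899.TwoBridge.State

namespace Pool.Agent.R899.TB

open Polynomial

/-- Seifert matrix of the linear plumbing of `n` unknotted annuli with `b 0, …, b (n-1)` full
twists: the diagonal entries are the `b i`, the entries `(i, i+1)` are `1`. -/
def seifert (n : ℕ) (b : ℕ → ℤ) : Matrix (Fin n) (Fin n) ℤ :=
  fun i j => if i = j then b i else if (i : ℕ) + 1 = j then 1 else 0

/-- `det (V - t Vᵀ)`. -/
noncomputable def alexander (n : ℕ) (b : ℕ → ℤ) : ℤ[X] :=
  ((seifert n b).map C - (X : ℤ[X]) • ((seifert n b).transpose).map C).det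

/-- tridiagonal matrix -/
def tri {R : Type*} [CommRing R] (n : ℕ) (a : ℕ → R) (β γ : R) : Matrix (Fin n) (Fin n) R :=
  fun i j => if i = j then a i else if (i : ℕ) + 1 = j then β else
    if (j : ℕ) + 1 = i then γ else 0

theorem det_tri {R : Type*} [CommRing R] (n : ℕ) (a : ℕ → R) (β γ : R) :
    (tri (n + 2) a β γ).det = a 0 * (tri (n + 1) (fun i => a (i + 1)) β γ).det
      - β * γ * (tri n (fun i => a (i + 2)) β γ).det := by
  have h1 : (tri (n + 2) a β γ).submatrix Fin.succ (Fin.succAbove 0)
      = tri (n + 1) (fun i => a (i + 1)) β γ := by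
    ext i j
    simp only [tri, Matrix.submatrix_apply, Fin.succAbove_zero, Fin.succ_inj, Fin.val_succ]
    split_ifs <;> first | rfl | omega
  have h2 : ((tri (n + 2) a β γ).submatrix Fin.succ (Fin.succAbove 1)).det
      = γ * (tri n (fun i => a (i + 2)) β γ).det := by
    rw [Matrix.det_succ_column_zero]
    rw [Fin.sum_univ_succ]
    rw [Finset.sum_eq_zero]
    · have e0 : (tri (n + 2) a β γ).submatrix Fin.succ (Fin.succAbove 1) 0 0 = γ := by
        simp [tri, Matrix.submatrix_apply]
      have e1 : ((tri (n + 2) a β γ).submatrix Fin.succ (Fin.succAbove 1)).submatrix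
          (Fin.succAbove 0) Fin.succ = tri n (fun i => a (i + 2)) β γ := by
        ext i j
        have hj : (Fin.succAbove (1 : Fin (n + 2)) j.succ) = j.succ.succ := by
          apply Fin.succAbove_of_le_castSucc
          rw [Fin.le_def]
          simp
        simp only [tri, Matrix.submatrix_apply, Fin.succAbove_zero, hj, Fin.succ_inj,
          Fin.val_succ]
        split_ifs <;> first | rfl | omega
      rw [e0, e1]
      simp
    · intro i _
      have e0 : (tri (n + 2) a β γ).submatrix Fin.succ (Fin.succAbove 1) i.succ 0 = 0 := by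
        have h0 : (Fin.succAbove (1 : Fin (n + 2)) (0 : Fin (n + 1))) = 0 := by
          simp
        simp only [tri, Matrix.submatrix_apply, h0]
        have n1 : ¬ (i.succ.succ = (0 : Fin (n + 2))) := Fin.succ_ne_zero _
        rw [if_neg n1]
        simp
      rw [e0]; simp
  rw [Matrix.det_succ_row_zero, Fin.sum_univ_succ, Fin.sum_univ_succ, Finset.sum_eq_zero]
  · rw [h1]
    have e : (Fin.succ (0 : Fin (n + 1))) = (1 : Fin (n + 2)) := rfl
    rw [e, h2]
    simp [tri]
    ring
  · intro i _
    have e0 : tri (n + 2) a β γ 0 i.succ.succ = 0 := by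
      simp only [tri]
      have n1 : ¬ ((0 : Fin (n + 2)) = i.succ.succ) := (Fin.succ_ne_zero _).symm
      rw [if_neg n1]
      simp
    rw [e0]; simp

theorem alexander_eq_tri (n : ℕ) (b : ℕ → ℤ) :
    alexander n b = (tri n (fun i => C (b i) * (1 - X)) (1 : ℤ[X]) (-X)).det := by
  unfold alexander
  congr 1
  refine Matrix.ext fun i j => ?_
  simp only [seifert, tri, Matrix.sub_apply, Matrix.smul_apply, Matrix.map_apply,
    Matrix.transpose_apply, smul_eq_mul]
  by_cases h1 : i = j
  · subst h1
    simp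
    ring
  · have h1' : ¬ j = i := fun h => h1 h.symm
    rw [if_neg h1, if_neg h1', if_neg h1]
    by_cases h2 : (i : ℕ) + 1 = j
    · have h3 : ¬ ((j : ℕ) + 1 = i) := by omega
      rw [if_pos h2, if_neg h3, if_pos h2]; simp
    · rw [if_neg h2, if_neg h2]
      by_cases h3 : (j : ℕ) + 1 = i
      · rw [if_pos h3, if_pos h3]; simp
      · rw [if_neg h3, if_neg h3]; simp

theorem alexander_zero (b : ℕ → ℤ) : alexander 0 b = 1 := by
  unfold alexander; exact Matrix.det_fin_zero

theorem alexander_one (b : ℕ → ℤ) : alexander 1 b = C (b 0) * (1 - X) := by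
  rw [alexander_eq_tri, Matrix.det_fin_one]
  simp [tri]

theorem alexander_rec (n : ℕ) (b : ℕ → ℤ) :
    alexander (n + 2) b = C (b 0) * (1 - X) * alexander (n + 1) (fun j => b (j + 1))
      + X * alexander n (fun j => b (j + 2)) := by
  rw [alexander_eq_tri, alexander_eq_tri, alexander_eq_tri, det_tri]
  ring

/-- the sign of the product of the `b i`. -/
def sg : ℕ → (ℕ → ℤ) → ℤ
  | 0, _ => 1
  | n + 1, b => (b 0).sign * sg n (fun j => b (j + 1))

theorem sg_sq (n : ℕ) : ∀ b : ℕ → ℤ, (∀ i < n, b i ≠ 0) → sg n b = 1 ∨ sg n b = -1 := by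
  induction n with
  | zero => intro b _; left; rfl
  | succ n ih =>
    intro b hb
    have h := ih (fun j => b (j + 1)) (fun i hi => hb (i + 1) (by omega))
    have h0 := hb 0 (by omega)
    simp only [sg]
    rcases lt_or_gt_of_ne h0 with a | a
    · rw [Int.sign_eq_neg_one_of_neg a]
      rcases h with h | h <;> rw [h] <;> simp
    · rw [Int.sign_eq_one_of_pos a]
      rcases h with h | h <;> rw [h] <;> simp

theorem sign_mul_sign {x : ℤ} (h : x ≠ 0) : x.sign * x.sign = 1 := by
  rcases lt_or_gt_of_ne h with a | a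
  · rw [Int.sign_eq_neg_one_of_neg a]; norm_num
  · rw [Int.sign_eq_one_of_pos a]; norm_num

theorem coeff_alexander_aux (n : ℕ) : (∀ b : ℕ → ℤ, (∀ i < n, b i ≠ 0) → ∀ i : ℕ,
      (alexander n b).coeff i = sg n b * (-1) ^ i * K n b i) ∧
    (∀ b : ℕ → ℤ, (∀ i < n + 1, b i ≠ 0) → ∀ i : ℕ,
      (alexander (n + 1) b).coeff i = sg (n + 1) b * (-1) ^ i * K (n + 1) b i) := by
  induction n with
  | zero =>
    constructor
    · intro b _ i
      rw [alexander_zero, coeff_one]
      simp only [sg, K]
      cases i with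
      | zero => simp
      | succ i =>
        have : ((i : ℤ) + 1) ≠ 0 := by omega
        simp [this]
    · intro b _ i
      rw [zero_add, alexander_one]
      simp only [sg, K]
      rw [coeff_C_mul, coeff_sub, coeff_one, coeff_X]
      have hs : (b 0).sign * |b 0| = b 0 := Int.sign_mul_abs _
      rcases i with _ | _ | i
      · simp
        exact hs.symm
      · simp
        linarith
      · have h1 : ((i : ℤ) + 1 + 1) ≠ 0 := by omega
        have h2 : ((i : ℤ) + 1 + 1 - 1) ≠ 0 := by omega
        have h3 : ¬ (1 = i + 1 + 1) := by omega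
        have h4 : ¬ (i + 1 + 1 = 0) := by omega
        push_cast
        rw [if_neg h1, if_neg h2]
        simp
  | succ n ih =>
    refine ⟨ih.2, ?_⟩
    intro b hb i
    have hA := ih.2 (fun j => b (j + 1)) (fun i hi => hb (i + 1) (by omega))
    have hB := ih.1 (fun j => b (j + 2)) (fun i hi => hb (i + 2) (by omega))
    have h0 : b 0 ≠ 0 := hb 0 (by omega)
    have h1 : b 1 ≠ 0 := hb 1 (by omega)
    have hs : (b 0).sign * |b 0| = b 0 := Int.sign_mul_abs _
    have e1 : sg (n + 1 + 1) b = (b 0).sign * sg (n + 1) (fun j => b (j + 1)) := rfl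
    have e2 : sg (n + 1) (fun j => b (j + 1)) = (b 1).sign * sg n (fun j => b (j + 2)) := rfl
    have s0 := sign_mul_sign h0
    have s1 := sign_mul_sign h1
    have e3 : sg n (fun j => b (j + 2)) =
        (b 0).sign * (b 1).sign * sg (n + 1 + 1) b := by
      rw [e1, e2]
      calc sg n (fun j => b (j + 2)) = 1 * 1 * sg n (fun j => b (j + 2)) := by ring
        _ = ((b 0).sign * (b 0).sign) * ((b 1).sign * (b 1).sign) *
              sg n (fun j => b (j + 2)) := by rw [s0, s1]
        _ = _ := by ring
    have e4 : b 0 * sg (n + 1) (fun j => b (j + 1)) = |b 0| * sg (n + 1 + 1) b := by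
      rw [e1]
      calc b 0 * sg (n + 1) (fun j => b (j + 1))
          = ((b 0).sign * |b 0|) * sg (n + 1) (fun j => b (j + 1)) := by rw [hs]
        _ = _ := by ring
    have hK : K (n + 1 + 1) b i = |b 0| * (K (n + 1) (fun j => b (j + 1)) i
      + K (n + 1) (fun j => b (j + 1)) (i - 1))
      - ((b 0).sign * (b 1).sign) * K n (fun j => b (j + 2)) (i - 1) := rfl
    have hst1 := St_K (n + 1) (fun j => b (j + 1)) (fun i hi => hb (i + 1) (by omega))
    have hst2 := St_K n (fun j => b (j + 2)) (fun i hi => hb (i + 2) (by omega))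
    rw [alexander_rec, coeff_add, mul_assoc, coeff_C_mul, sub_mul, one_mul, coeff_sub, hK]
    cases i with
    | zero =>
      rw [mul_coeff_zero, mul_coeff_zero, coeff_X_zero, zero_mul, zero_mul, hA 0]
      have z1 := hst1.negX ((0 : ℕ) - 1) (by omega)
      have z2 := hst2.negX ((0 : ℕ) - 1) (by omega)
      rw [z1, z2]
      simp only [pow_zero, mul_one, Nat.cast_zero, sub_zero, add_zero, mul_zero]
      rw [← mul_assoc, e4]; ring
    | succ i =>
      rw [coeff_X_mul, coeff_X_mul, hA (i + 1), hA i, hB i]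
      have c1 : (((i + 1 : ℕ) : ℤ) - 1) = i := by push_cast; ring
      rw [c1, e3]
      have : b 0 * (sg (n + 1) (fun j => b (j + 1)) * (-1) ^ (i + 1) *
            K (n + 1) (fun j => b (j + 1)) ((i + 1 : ℕ) : ℤ) -
          sg (n + 1) (fun j => b (j + 1)) * (-1) ^ i * K (n + 1) (fun j => b (j + 1)) i)
          = (b 0 * sg (n + 1) (fun j => b (j + 1))) * ((-1) ^ (i + 1) *
            (K (n + 1) (fun j => b (j + 1)) ((i + 1 : ℕ) : ℤ) +
            K (n + 1) (fun j => b (j + 1)) i)) := by ring
      rw [this, e4]; ring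

theorem coeff_alexander (n : ℕ) (b : ℕ → ℤ) (hb : ∀ i < n, b i ≠ 0) (i : ℕ) :
    (alexander n b).coeff i = sg n b * (-1) ^ i * K n b i :=
  (coeff_alexander_aux n).1 b hb i

end Pool.Agent.R899.TB
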