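import Mathlib
import Pool.Agent.R899.TwoBridge.Poly

namespace Pool.Agent.R899.TB

open Polynomial

/-- The Conway polynomial (Euler continuant in `b i * z`). -/
noncomputable def conway : ℕ → (ℕ → ℤ) → ℤ[X]
  | 0, _ => 1
  | 1, b => C (b 0) * X
  | n + 2, b => C (b 0) * X * conway (n + 1) (fun j => b (j + 1))
      + conway n (fun j => b (j + 2))

/-- Fibonacci polynomials. -/
noncomputable def fibPoly : ℕ → ℤ[X]
  | 0 => 0
  | 1 => 1
  | n + 2 => X * fibPoly (n + 1) + fibPoly n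

theorem conway_spec_aux {F : Type*} [Field F] (u : F) (hu : u ≠ 0) (n : ℕ) :
    (∀ b : ℕ → ℤ, (alexander n b).eval₂ (Int.castRingHom F) (u ^ 2) =
      u ^ n * (conway n b).eval₂ (Int.castRingHom F) (u⁻¹ - u)) ∧
    (∀ b : ℕ → ℤ, (alexander (n + 1) b).eval₂ (Int.castRingHom F) (u ^ 2) =
      u ^ (n + 1) * (conway (n + 1) b).eval₂ (Int.castRingHom F) (u⁻¹ - u)) := by
  induction n with
  | zero =>
    constructor
    · intro b; rw [alexander_zero]; simp [conway]
    · intro b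
      rw [zero_add, alexander_one]
      simp only [conway, eval₂_mul, eval₂_C, eval₂_sub, eval₂_one, eval₂_X]
      field_simp
  | succ n ih =>
    refine ⟨ih.2, ?_⟩
    intro b
    rw [alexander_rec]
    simp only [conway, eval₂_add, eval₂_mul, eval₂_C, eval₂_sub, eval₂_one, eval₂_X]
    rw [ih.1, ih.2]
    field_simp
    ring

theorem conway_spec {F : Type*} [Field F] (u : F) (hu : u ≠ 0) (n : ℕ) (b : ℕ → ℤ) :
    (alexander n b).eval₂ (Int.castRingHom F) (u ^ 2) =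
      u ^ n * (conway n b).eval₂ (Int.castRingHom F) (u⁻¹ - u) :=
  (conway_spec_aux u hu n).1 b

theorem dd_center {n : ℕ} {b : ℕ → ℤ} (hb : ∀ i < n, b i ≠ 0) {i : ℤ} (hi : 2 * i = n + 1) :
    dd (K n b) i = 0 := by
  have h := (St_K n b hb).palX i
  unfold dd
  have e : (n : ℤ) - i = i - 1 := by omega
  rw [e] at h
  rw [h]; ring

/-- signed Fibonacci coefficient -/
def wt (n : ℕ) (b : ℕ → ℤ) (i : ℕ) : ℤ := sg n b * (-1) ^ i * dd (K n b) i

theorem X_mul_fib (k : ℕ) : X * fibPoly (k + 1) = fibPoly (k + 2) - fibPoly k := by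
  simp [fibPoly]

theorem wt_mul (n : ℕ) (b : ℕ → ℤ) (hb : ∀ i < n + 1, b i ≠ 0) (i : ℕ) :
    C (wt (n + 1) b i) * (X * fibPoly (n + 1 + 1 - 2 * i)) =
      C (wt (n + 1) b i) * (fibPoly (n + 1 + 2 - 2 * i) - fibPoly (n + 1 - 2 * i)) := by
  rcases lt_trichotomy (2 * i) (n + 2) with h | h | h
  · obtain ⟨k, hk⟩ : ∃ k, n + 1 + 1 - 2 * i = k + 1 := ⟨n + 1 - 2 * i, by omega⟩
    have e1 : n + 1 + 2 - 2 * i = k + 2 := by omega
    have e2 : n + 1 - 2 * i = k := by omega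
    rw [hk, e1, e2, X_mul_fib]
  · have : wt (n + 1) b i = 0 := by
      unfold wt
      rw [dd_center hb (by push_cast; omega)]; ring
    rw [this]; simp
  · have e0 : n + 1 + 1 - 2 * i = 0 := by omega
    have e1 : n + 1 + 2 - 2 * i = 0 := by omega
    have e2 : n + 1 - 2 * i = 0 := by omega
    rw [e0, e1, e2]; simp [fibPoly]

theorem wt_zero (n : ℕ) (b : ℕ → ℤ) (hb : ∀ i < n + 1 + 1, b i ≠ 0) :
    wt (n + 1 + 1) b 0 = b 0 * wt (n + 1) (fun j => b (j + 1)) 0 := by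
  have hK : ∀ i, K (n + 1 + 1) b i = |b 0| * (K (n + 1) (fun j => b (j + 1)) i
      + K (n + 1) (fun j => b (j + 1)) (i - 1))
      - ((b 0).sign * (b 1).sign) * K n (fun j => b (j + 2)) (i - 1) := fun i => rfl
  have hst1 := St_K (n + 1) (fun j => b (j + 1)) (fun i hi => hb (i + 1) (by omega))
  have hst2 := St_K n (fun j => b (j + 2)) (fun i hi => hb (i + 2) (by omega))
  have hs : (b 0).sign * |b 0| = b 0 := Int.sign_mul_abs _
  have e1 : sg (n + 1 + 1) b = (b 0).sign * sg (n + 1) (fun j => b (j + 1)) := rfl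
  unfold wt dd
  rw [hK, hK, hst1.negX _ (by simp : ((0 : ℕ) : ℤ) - 1 < 0),
    hst1.negX _ (by simp : ((0 : ℕ) : ℤ) - 1 - 1 < 0),
    hst2.negX _ (by simp : ((0 : ℕ) : ℤ) - 1 < 0),
    hst2.negX _ (by simp : ((0 : ℕ) : ℤ) - 1 - 1 < 0), e1]
  calc _ = ((b 0).sign * |b 0|) * (sg (n + 1) (fun j => b (j + 1)) * (-1) ^ 0 *
        (K (n + 1) (fun j => b (j + 1)) ((0 : ℕ) : ℤ) - 0)) := by ring
    _ = _ := by rw [hs]

theorem wt_succ (n : ℕ) (b : ℕ → ℤ) (hb : ∀ i < n + 1 + 1, b i ≠ 0) (i : ℕ) :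
    wt (n + 1 + 1) b (i + 1) = b 0 * (wt (n + 1) (fun j => b (j + 1)) (i + 1)
      - wt (n + 1) (fun j => b (j + 1)) i) + wt n (fun j => b (j + 2)) i := by
  have hK : ∀ i, K (n + 1 + 1) b i = |b 0| * (K (n + 1) (fun j => b (j + 1)) i
      + K (n + 1) (fun j => b (j + 1)) (i - 1))
      - ((b 0).sign * (b 1).sign) * K n (fun j => b (j + 2)) (i - 1) := fun i => rfl
  have hs : (b 0).sign * |b 0| = b 0 := Int.sign_mul_abs _
  have e1 : sg (n + 1 + 1) b = (b 0).sign * sg (n + 1) (fun j => b (j + 1)) := rfl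
  have e2 : sg (n + 1) (fun j => b (j + 1)) = (b 1).sign * sg n (fun j => b (j + 2)) := rfl
  have s0 := sign_mul_sign (hb 0 (by omega))
  have s1 := sign_mul_sign (hb 1 (by omega))
  have e3 : sg n (fun j => b (j + 2)) =
      (b 0).sign * (b 1).sign * sg (n + 1 + 1) b := by
    rw [e1, e2]
    calc sg n (fun j => b (j + 2)) = 1 * 1 * sg n (fun j => b (j + 2)) := by ring
      _ = ((b 0).sign * (b 0).sign) * ((b 1).sign * (b 1).sign) *
            sg n (fun j => b (j + 2)) := by rw [s0, s1]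
      _ = _ := by ring
  have e4 : b 0 * sg (n + 1) (fun j => b (j + 1)) = |b 0| * sg (n + 1 + 1) b := by
    rw [e1]
    calc b 0 * sg (n + 1) (fun j => b (j + 1))
        = ((b 0).sign * |b 0|) * sg (n + 1) (fun j => b (j + 1)) := by rw [hs]
      _ = _ := by ring
  unfold wt dd
  rw [hK, hK, e3]
  have c1 : (((i + 1 : ℕ) : ℤ) - 1) = i := by push_cast; ring
  rw [c1]
  have : b 0 * (sg (n + 1) (fun j => b (j + 1)) * (-1) ^ (i + 1) *
        (K (n + 1) (fun j => b (j + 1)) ((i + 1 : ℕ) : ℤ) -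
          K (n + 1) (fun j => b (j + 1)) i) -
      sg (n + 1) (fun j => b (j + 1)) * (-1) ^ i *
        (K (n + 1) (fun j => b (j + 1)) i - K (n + 1) (fun j => b (j + 1)) (i - 1)))
      = (b 0 * sg (n + 1) (fun j => b (j + 1))) * ((-1) ^ (i + 1) *
        (K (n + 1) (fun j => b (j + 1)) ((i + 1 : ℕ) : ℤ) -
          K (n + 1) (fun j => b (j + 1)) (i - 1))) := by ring
  rw [this, e4]
  ring

theorem alg3 (c x y z : ℤ) (F : ℤ[X]) :
    C (c * (x - y) + z) * F = C c * (C x * F) - C c * (C y * F) + C z * F := by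
  rw [C_add, C_mul, C_sub]
  ring

theorem alg4 (c x : ℤ) (F : ℤ[X]) : C (c * x) * F = C c * (C x * F) := by
  rw [C_mul, mul_assoc]

theorem alg2 (n N : ℕ) (hN : n + 1 ≤ 2 * N) (w F : ℕ → ℤ[X]) (hF : F 0 = 0) :
    (∑ i ∈ Finset.range (N + 1), w i * (F (n + 1 + 2 - 2 * i) - F (n + 1 - 2 * i))) =
      (∑ i ∈ Finset.range N, w (i + 1) * F (n + 1 - 2 * i)) + w 0 * F (n + 3)
        - ∑ i ∈ Finset.range N, w i * F (n + 1 - 2 * i) := by
  have a1 : (∑ i ∈ Finset.range (N + 1), w i * F (n + 1 + 2 - 2 * i)) =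
      (∑ i ∈ Finset.range N, w (i + 1) * F (n + 1 - 2 * i)) + w 0 * F (n + 3) := by
    rw [Finset.sum_range_succ']
    have e : ∀ i ∈ Finset.range N, w (i + 1) * F (n + 1 + 2 - 2 * (i + 1)) =
        w (i + 1) * F (n + 1 - 2 * i) := by
      intro i _
      have e : n + 1 + 2 - 2 * (i + 1) = n + 1 - 2 * i := by omega
      rw [e]
    rw [Finset.sum_congr rfl e]
    have e2 : n + 1 + 2 - 2 * 0 = n + 3 := by omega
    rw [e2]
  have a2 : (∑ i ∈ Finset.range (N + 1), w i * F (n + 1 - 2 * i)) =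
      ∑ i ∈ Finset.range N, w i * F (n + 1 - 2 * i) := by
    rw [Finset.sum_range_succ]
    have : n + 1 - 2 * N = 0 := by omega
    rw [this, hF, mul_zero, add_zero]
  rw [← a1, ← a2, ← Finset.sum_sub_distrib]
  exact Finset.sum_congr rfl (fun i _ => mul_sub _ _ _)

theorem conway_fib_aux (n : ℕ) :
    (∀ b : ℕ → ℤ, (∀ i < n, b i ≠ 0) → ∀ N : ℕ, n + 1 ≤ 2 * N →
      conway n b = ∑ i ∈ Finset.range N, C (wt n b i) * fibPoly (n + 1 - 2 * i)) ∧
    (∀ b : ℕ → ℤ, (∀ i < n + 1, b i ≠ 0) → ∀ N : ℕ, n + 2 ≤ 2 * N →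
      conway (n + 1) b =
        ∑ i ∈ Finset.range N, C (wt (n + 1) b i) * fibPoly (n + 1 + 1 - 2 * i)) := by
  induction n with
  | zero =>
    constructor
    · intro b _ N hN
      obtain ⟨N, rfl⟩ : ∃ N', N = N' + 1 := ⟨N - 1, by omega⟩
      rw [Finset.sum_range_succ', Finset.sum_eq_zero]
      · simp [conway, wt, dd, K, sg, fibPoly]
      · intro i _
        have : 0 + 1 - 2 * (i + 1) = 0 := by omega
        rw [this]; simp [fibPoly]
    · intro b hb N hN
      obtain ⟨N, rfl⟩ : ∃ N', N = N' + 1 := ⟨N - 1, by omega⟩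
      rw [Finset.sum_range_succ', Finset.sum_eq_zero]
      · have hs : (b 0).sign * |b 0| = b 0 := Int.sign_mul_abs _
        have : wt (0 + 1) b 0 = b 0 := by
          simp [wt, dd, K, sg]
          exact hs
        rw [this]
        simp [conway, fibPoly]
      · intro i _
        have : 0 + 1 + 1 - 2 * (i + 1) = 0 := by omega
        rw [this]; simp [fibPoly]
  | succ n ih =>
    refine ⟨ih.2, ?_⟩
    intro b hb N hN
    obtain ⟨N, rfl⟩ : ∃ N', N = N' + 1 := ⟨N - 1, by omega⟩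
    have hA := ih.2 (fun j => b (j + 1)) (fun i hi => hb (i + 1) (by omega)) (N + 1) (by omega)
    have hB := ih.1 (fun j => b (j + 2)) (fun i hi => hb (i + 2) (by omega)) N (by omega)
    have hc : conway (n + 1 + 1) b = C (b 0) * X * conway (n + 1) (fun j => b (j + 1))
      + conway n (fun j => b (j + 2)) := rfl
    have h1 : C (b 0) * X * conway (n + 1) (fun j => b (j + 1)) =
        C (b 0) * (∑ i ∈ Finset.range (N + 1), C (wt (n + 1) (fun j => b (j + 1)) i) *
          (fibPoly (n + 1 + 2 - 2 * i) - fibPoly (n + 1 - 2 * i))) := by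
      rw [hA, mul_assoc, Finset.mul_sum]
      congr 1
      apply Finset.sum_congr rfl
      intro i _
      rw [← wt_mul n (fun j => b (j + 1)) (fun i hi => hb (i + 1) (by omega)) i]
      ring
    have h2 : (∑ i ∈ Finset.range (N + 1), C (wt (n + 1) (fun j => b (j + 1)) i) *
          (fibPoly (n + 1 + 2 - 2 * i) - fibPoly (n + 1 - 2 * i))) =
        (∑ i ∈ Finset.range N, C (wt (n + 1) (fun j => b (j + 1)) (i + 1)) *
          fibPoly (n + 1 - 2 * i)) + C (wt (n + 1) (fun j => b (j + 1)) 0) * fibPoly (n + 3)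
        - ∑ i ∈ Finset.range N, C (wt (n + 1) (fun j => b (j + 1)) i) *
          fibPoly (n + 1 - 2 * i) := by
      exact alg2 n N (by omega) (fun i => C (wt (n + 1) (fun j => b (j + 1)) i)) fibPoly rfl
    rw [hc, h1, h2, hB, Finset.sum_range_succ']
    have h3 : ∀ i, C (wt (n + 1 + 1) b (i + 1)) * fibPoly (n + 1 + 1 + 1 - 2 * (i + 1)) =
        C (b 0) * (C (wt (n + 1) (fun j => b (j + 1)) (i + 1)) * fibPoly (n + 1 - 2 * i))
        - C (b 0) * (C (wt (n + 1) (fun j => b (j + 1)) i) * fibPoly (n + 1 - 2 * i))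
        + C (wt n (fun j => b (j + 2)) i) * fibPoly (n + 1 - 2 * i) := by
      intro i
      have e : n + 1 + 1 + 1 - 2 * (i + 1) = n + 1 - 2 * i := by omega
      rw [e, wt_succ n b hb i, alg3]
    have h4 : C (wt (n + 1 + 1) b 0) * fibPoly (n + 1 + 1 + 1 - 2 * 0) =
        C (b 0) * (C (wt (n + 1) (fun j => b (j + 1)) 0) * fibPoly (n + 3)) := by
      rw [wt_zero n b hb, alg4, mul_zero, Nat.sub_zero]
    rw [h4, Finset.sum_congr rfl (fun i _ => h3 i), Finset.sum_add_distrib,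
      Finset.sum_sub_distrib, ← Finset.mul_sum, ← Finset.mul_sum]
    generalize (∑ i ∈ Finset.range N, C (wt (n + 1) (fun j => b (j + 1)) (i + 1)) *
          fibPoly (n + 1 - 2 * i)) = S1
    generalize (∑ i ∈ Finset.range N, C (wt (n + 1) (fun j => b (j + 1)) i) *
          fibPoly (n + 1 - 2 * i)) = S2
    generalize (∑ i ∈ Finset.range N, C (wt n (fun j => b (j + 2)) i) *
          fibPoly (n + 1 - 2 * i)) = S3
    generalize (C (wt (n + 1) (fun j => b (j + 1)) 0) * fibPoly (n + 3)) = S4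
    ring

theorem conway_fib (n : ℕ) (b : ℕ → ℤ) (hb : ∀ i < n, b i ≠ 0) :
    conway n b = ∑ i ∈ Finset.range (n / 2 + 1),
      C (wt n b i) * fibPoly (n + 1 - 2 * i) :=
  (conway_fib_aux n).1 b hb _ (by omega)

end Pool.Agent.R899.TB
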